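import Mathlib

/-!
# MP_2dea4c_co: for every `k ≥ 2` a `k`-partition-connected digraph without a good decomposition

For all `k ≥ 2` and `n ≥ 9` a digraph with `n` nodes and `k n` arcs.  Nodes `0, ..., 8` and, for
`n > 9`, leaves which receive `k` parallel arcs from the root `0`.  Besides these there are nine
groups of `k` arcs; in the first four and in the seventh group one arc is special:

* group 0: one arc `7 → 1` and `k - 1` arcs `2 → 1`;
* group 1: one arc `5 → 3` and `k - 1` arcs `8 → 3`;
* group 2: one arc `0 → 2` and `k - 1` arcs `3 → 2`;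
* group 3: one arc `1 → 5` and `k - 1` arcs `0 → 5`;
* group 4: `k` arcs `3 → 4`;  group 5: `k` arcs `5 → 6`;
* group 6: one arc `1 → 4` and `k - 1` arcs `2 → 6`;
* group 7: `k` arcs `7 → 8`;  group 8: `k` arcs `8 → 7`.

Every part of a decomposition has exactly one arc of each of the groups 0, 1, 2, 3.  The cut
`{7, 8}` shows that one part `P` has both `7 → 1` and `5 → 3`, the cut `{0}` shows that one part
`X` has both `0 → 2` and `1 → 5`.  If `P = X` every part needs an arc `2 → 6`; if not, `P` and `X`
both need the arc `1 → 4`.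
-/

set_option autoImplicit false

namespace Pool.Agent.Lib.MP_2dea4c_co.ExEveryK

/-- A digraph with node set `V` and arc set `A`, loopless; parallel arcs are allowed. -/
structure MDigraph (V A : Type) where
  /-- the tail of an arc -/
  tail : A → V
  /-- the head of an arc -/
  head : A → V
  /-- no arc is a loop -/
  loopless : ∀ a : A, tail a ≠ head a

namespace MDigraph

variable {V A : Type} (D : MDigraph V A)

/-- The underlying graph is `k`-partition-connected: for every partition of the node set, at least
`k (c - 1)` arcs join distinct classes, where `c` is the number of classes. -/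
def PartConn (k : ℕ) : Prop :=
  ∀ P : Setoid V, k * (Nat.card (Quotient P) - 1) ≤ {a : A | ¬ P.r (D.tail a) (D.head a)}.ncard

/-- The spanning subgraph `(V, S)` is weakly connected. -/
def WeakConn (S : Set A) : Prop :=
  ∀ u v : V, Relation.ReflTransGen
    (fun x y => ∃ a ∈ S, (D.tail a = x ∧ D.head a = y) ∨ (D.tail a = y ∧ D.head a = x)) u v

/-- In the spanning subgraph `(V, S)` every node other than `r` has positive in-degree. -/
def Enters (S : Set A) (r : V) : Prop :=
  ∀ v : V, v ≠ r → ∃ a ∈ S, D.head a = v

end MDigraph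

open MDigraph

/-! ## Spanning trees -/

section forest

variable {V A : Type} (D : MDigraph V A)

theorem card_quotient_le [Finite V] (P : Setoid V) (r : V) (par : V → V) (dep : V → ℕ)
    (h1 : ∀ v, v ≠ r → dep (par v) < dep v) :
    Nat.card (Quotient P) - 1 ≤ {v : V | v ≠ r ∧ ¬ P.r v (par v)}.ncard := by
  classical
  set F : Set V := {v : V | v ≠ r ∧ ¬ P.r v (par v)} with hF
  have key : ∀ n : ℕ, ∀ v : V, dep v ≤ n → (Quotient.mk P v) ∈ (Quotient.mk P) '' (insert r F) := by
    intro n
    induction n with
    | zero =>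
      intro v hv
      by_cases h0 : v = r
      · exact ⟨r, Set.mem_insert _ _, by rw [h0]⟩
      · have := h1 v h0
        omega
    | succ n ih =>
      intro v hv
      by_cases h0 : v = r
      · exact ⟨r, Set.mem_insert _ _, by rw [h0]⟩
      · by_cases hp : P.r v (par v)
        · have h2 : Quotient.mk P v = Quotient.mk P (par v) := Quotient.sound hp
          rw [h2]
          apply ih
          have := h1 v h0
          omega
        · exact ⟨v, Set.mem_insert_of_mem _ ⟨h0, hp⟩, rfl⟩
  have h3 : (Set.univ : Set (Quotient P)) ⊆ (Quotient.mk P) '' (insert r F) := by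
    intro q _
    induction q using Quotient.inductionOn with
    | h v => exact key _ v le_rfl
  have h4 : Nat.card (Quotient P) ≤ (insert r F).ncard := by
    rw [← Set.ncard_univ]
    exact (Set.ncard_le_ncard h3 (Set.toFinite _)).trans (Set.ncard_image_le (Set.toFinite _))
  have h5 : (insert r F).ncard ≤ F.ncard + 1 := Set.ncard_insert_le _ _
  omega

theorem partConn_of_trees [Finite V] [Finite A] (k : ℕ) (r : V) (par : Fin k → V → V)
    (e : Fin k → V → A) (dep : Fin k → V → ℕ)
    (h1 : ∀ t v, v ≠ r → dep t (par t v) < dep t v)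
    (h2 : ∀ t v, v ≠ r → (D.tail (e t v) = v ∧ D.head (e t v) = par t v) ∨
      (D.tail (e t v) = par t v ∧ D.head (e t v) = v))
    (h3 : ∀ t v t' v', v ≠ r → v' ≠ r → e t v = e t' v' → t = t' ∧ v = v') :
    D.PartConn k := by
  classical
  intro P
  have : Fintype V := Fintype.ofFinite V
  have : Fintype A := Fintype.ofFinite A
  set F : Fin k → Finset V := fun t => Finset.univ.filter (fun v => v ≠ r ∧ ¬ P.r v (par t v))
    with hF
  have hc : ∀ t, Nat.card (Quotient P) - 1 ≤ (F t).card := by
    intro t
    have := card_quotient_le P r (par t) (dep t) (h1 t)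
    have h4 : {v : V | v ≠ r ∧ ¬ P.r v (par t v)}.ncard = (F t).card := by
      rw [← Set.ncard_coe_finset]
      congr 1
      ext v
      simp [hF]
    omega
  have hs : k * (Nat.card (Quotient P) - 1) ≤ ∑ t : Fin k, (F t).card := by
    calc k * (Nat.card (Quotient P) - 1)
        = ∑ _t : Fin k, (Nat.card (Quotient P) - 1) := by simp
      _ ≤ ∑ t : Fin k, (F t).card := Finset.sum_le_sum (fun t _ => hc t)
  refine hs.trans ?_
  rw [← Finset.card_sigma]
  have h5 : {a : A | ¬ P.r (D.tail a) (D.head a)}.ncard =
      (Finset.univ.filter (fun a : A => ¬ P.r (D.tail a) (D.head a))).card := by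
    rw [← Set.ncard_coe_finset]
    congr 1
    ext v
    simp
  rw [h5]
  refine Finset.card_le_card_of_injOn (fun x => e x.1 x.2) ?_ ?_
  · intro x hx
    simp only [hF, Finset.coe_sigma, Set.mem_sigma_iff, Finset.coe_filter, Finset.mem_univ,
      true_and, Set.mem_setOf_eq, Finset.coe_univ, Set.mem_univ] at hx ⊢
    rcases h2 x.1 x.2 hx.1 with h | h
    · rw [h.1, h.2]; exact hx.2
    · rw [h.1, h.2]
      intro h6
      exact hx.2 (P.iseqv.symm h6)
  · intro x hx y hy hxy
    simp only [hF, Finset.coe_sigma, Set.mem_sigma_iff, Finset.coe_filter, Finset.mem_univ,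
      true_and, Set.mem_setOf_eq, Finset.coe_univ, Set.mem_univ] at hx hy
    obtain ⟨h6, h7⟩ := h3 _ _ _ _ hx.1 hy.1 hxy
    obtain ⟨x1, x2⟩ := x
    obtain ⟨y1, y2⟩ := y
    simp only at h6 h7
    subst h6
    subst h7
    rfl

theorem weakConn_of_tree (r : V) (par : V → V) (e : V → A) (dep : V → ℕ)
    (h1 : ∀ v, v ≠ r → dep (par v) < dep v)
    (h2 : ∀ v, v ≠ r → (D.tail (e v) = v ∧ D.head (e v) = par v) ∨
      (D.tail (e v) = par v ∧ D.head (e v) = v)) :
    D.WeakConn {a | ∃ v, v ≠ r ∧ e v = a} := by
  have key : ∀ n : ℕ, ∀ v : V, dep v ≤ n →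
      Relation.ReflTransGen (fun x y => ∃ a ∈ {a | ∃ v, v ≠ r ∧ e v = a},
        (D.tail a = x ∧ D.head a = y) ∨ (D.tail a = y ∧ D.head a = x)) v r ∧
      Relation.ReflTransGen (fun x y => ∃ a ∈ {a | ∃ v, v ≠ r ∧ e v = a},
        (D.tail a = x ∧ D.head a = y) ∨ (D.tail a = y ∧ D.head a = x)) r v := by
    intro n
    induction n with
    | zero =>
      intro v hv
      by_cases h0 : v = r
      · rw [h0]; exact ⟨Relation.ReflTransGen.refl, Relation.ReflTransGen.refl⟩
      · have := h1 v h0
        omega
    | succ n ih =>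
      intro v hv
      by_cases h0 : v = r
      · rw [h0]; exact ⟨Relation.ReflTransGen.refl, Relation.ReflTransGen.refl⟩
      · have h3 := h1 v h0
        obtain ⟨ha, hb⟩ := ih (par v) (by omega)
        refine ⟨Relation.ReflTransGen.head ⟨e v, ⟨v, h0, rfl⟩, h2 v h0⟩ ha,
          Relation.ReflTransGen.tail hb ⟨e v, ⟨v, h0, rfl⟩, (h2 v h0).symm⟩⟩
  intro u v
  exact (key _ u le_rfl).1.trans (key _ v le_rfl).2

/-- a weakly connected spanning subgraph has an arc in every cut -/
theorem exists_cut (S : Set A) (hS : D.WeakConn S) (g : V → Bool) (u v : V) (huv : g u ≠ g v) :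
    ∃ a ∈ S, g (D.tail a) ≠ g (D.head a) := by
  by_contra hcon
  push Not at hcon
  have key : ∀ w : V, Relation.ReflTransGen
      (fun x y => ∃ a ∈ S, (D.tail a = x ∧ D.head a = y) ∨ (D.tail a = y ∧ D.head a = x)) u w →
      g u = g w := by
    intro w hw
    induction hw with
    | refl => rfl
    | tail _ h ih =>
      obtain ⟨a, ha, h | h⟩ := h
      · rw [ih, ← h.1, ← h.2]; exact hcon a ha
      · rw [ih, ← h.1, ← h.2]; exact (hcon a ha).symm
  exact huv (key v (hS u v))

end forest

/-! ## The digraph -/

/-- tails: `true` for the special arc (index 0) of a group -/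
def tl (j : Fin 9) (b : Bool) : Fin 9 :=
  if b then ![7, 5, 0, 1, 3, 5, 1, 7, 8] j else ![2, 8, 3, 0, 3, 5, 2, 7, 8] j

/-- heads -/
def hd (j : Fin 9) (b : Bool) : Fin 9 :=
  if b then ![1, 3, 2, 5, 4, 6, 4, 8, 7] j else ![1, 3, 2, 5, 4, 6, 6, 8, 7] j

/-- the digraph with `9 + m` nodes -/
def dg (K m : ℕ) : MDigraph (Fin 9 ⊕ Fin m) ((Fin 9 ⊕ Fin m) × Fin (K + 2)) where
  tail a := Sum.elim (fun j => Sum.inl (tl j (decide (a.2 = 0)))) (fun _ => Sum.inl 0) a.1
  head a := Sum.elim (fun j => Sum.inl (hd j (decide (a.2 = 0)))) (fun l => Sum.inr l) a.1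
  loopless := by
    rintro ⟨j | l, i⟩
    · simp only [Sum.elim_inl, ne_eq, Sum.inl.injEq]
      have : ∀ (j : Fin 9) (b : Bool), tl j b ≠ hd j b := by decide
      exact this _ _
    · simp

/-- parents -/
def pr (K : ℕ) (t : Fin (K + 2)) (x : Fin 9) : Fin 9 :=
  if t = 0 then ![0, 5, 0, 4, 1, 6, 2, 1, 7] x else
    if t = 1 then ![0, 2, 3, 5, 3, 0, 5, 8, 3] x else ![0, 2, 6, 2, 3, 0, 5, 8, 3] x

/-- groups of the tree arcs -/
def sl (K : ℕ) (t : Fin (K + 2)) (x : Fin 9) : Fin 9 :=
  if t = 0 then ![8, 3, 2, 4, 6, 5, 6, 0, 7] x else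
    if t = 1 then ![8, 0, 2, 1, 4, 3, 5, 7, 1] x else ![8, 0, 6, 2, 4, 3, 5, 7, 1] x

/-- indices of the tree arcs -/
def ix (K : ℕ) (t : Fin (K + 2)) (x : Fin 9) : Fin (K + 2) :=
  if t = 0 then (if x = 6 then 1 else 0) else
    if t = 1 then (if x = 3 then 0 else 1) else t

/-- depths -/
def dp (K : ℕ) (t : Fin (K + 2)) (x : Fin 9) : ℕ :=
  if t = 0 then ![0, 4, 1, 6, 5, 3, 2, 5, 6] x else
    if t = 1 then ![0, 4, 3, 2, 3, 1, 2, 4, 3] x else ![0, 4, 3, 4, 5, 1, 2, 6, 5] x

theorem tree_dep (K : ℕ) (t : Fin (K + 2)) (x : Fin 9) (hx : x ≠ 0) :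
    dp K t (pr K t x) < dp K t x := by
  unfold dp pr
  by_cases h0 : t = 0
  · simp only [h0, if_true]
    revert x; decide
  · by_cases h1 : t = 1
    · simp only [h1, if_true]
      have h2 : (1 : Fin (K + 2)) ≠ 0 := by rw [← h1]; exact h0
      simp only [h2, if_false]
      revert x; decide
    · simp only [h0, h1, if_false]
      revert x; decide

theorem tree_arc (K : ℕ) (t : Fin (K + 2)) (x : Fin 9) (hx : x ≠ 0) :
    (tl (sl K t x) (decide (ix K t x = 0)) = x ∧ hd (sl K t x) (decide (ix K t x = 0)) = pr K t x) ∨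
    (tl (sl K t x) (decide (ix K t x = 0)) = pr K t x ∧ hd (sl K t x) (decide (ix K t x = 0)) = x)
    := by
  have h10 : (1 : Fin (K + 2)) ≠ 0 := by simp
  by_cases h0 : t = 0
  · have hb : decide (ix K t x = 0) = decide (x ≠ 6) := by
      unfold ix
      by_cases h6 : x = 6 <;> simp [h0, h6]
    rw [hb]
    clear hb
    unfold sl pr
    simp only [h0, if_true]
    revert x; decide
  · by_cases h1 : t = 1
    · have hb : decide (ix K t x = 0) = decide (x = 3) := by
        unfold ix
        by_cases h3 : x = 3 <;> simp [h1, h3]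
      rw [hb]
      clear hb
      unfold sl pr
      simp only [h1, h10, if_true, if_false]
      revert x; decide
    · have hb : decide (ix K t x = 0) = false := by
        unfold ix
        simp [h0, h1]
      rw [hb]
      clear hb
      unfold sl pr
      simp only [h0, h1, if_false]
      revert x; decide

theorem tree_inj (K : ℕ) (t t' : Fin (K + 2)) (x x' : Fin 9) (hx : x ≠ 0) (hx' : x' ≠ 0)
    (h1 : sl K t x = sl K t' x') (h2 : ix K t x = ix K t' x') : t = t' ∧ x = x' := by
  have h10 : (1 : Fin (K + 2)) ≠ 0 := by simp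
  have h01 : (0 : Fin (K + 2)) ≠ 1 := h10.symm
  unfold sl at h1
  unfold ix at h2
  by_cases a0 : t = 0
  · by_cases b0 : t' = 0
    · refine ⟨a0.trans b0.symm, ?_⟩
      simp only [a0, b0, if_true] at h1 h2
      have h3 : (x = 6 ↔ x' = 6) := by
        constructor
        · intro c; by_contra d; rw [if_pos c, if_neg d] at h2; exact h10 h2
        · intro c; by_contra d; rw [if_neg d, if_pos c] at h2; exact h01 h2
      clear h2
      revert x x'; decide
    · by_cases b1 : t' = 1
      · exfalso
        simp only [a0, b1, h10, if_true, if_false] at h1 h2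
        have h3 : (x = 6 ↔ x' ≠ 3) := by
          constructor
          · intro c d; rw [if_pos c, if_pos d] at h2; exact h10 h2
          · intro c; by_contra d; rw [if_neg d, if_neg c] at h2; exact h01 h2
        clear h2
        revert x x'; decide
      · exfalso
        simp only [a0, b0, b1, if_true, if_false] at h2
        by_cases c : x = 6
        · simp only [c, if_true] at h2; exact b1 h2.symm
        · simp only [c, if_false] at h2; exact b0 h2.symm
  · by_cases a1 : t = 1
    · by_cases b0 : t' = 0
      · exfalso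
        simp only [a1, b0, h10, if_true, if_false] at h1 h2
        have h3 : (x ≠ 3 ↔ x' = 6) := by
          constructor
          · intro c; by_contra d; rw [if_neg c, if_neg d] at h2; exact h10 h2
          · intro c d; rw [if_pos d, if_pos c] at h2; exact h01 h2
        clear h2
        revert x x'; decide
      · by_cases b1 : t' = 1
        · refine ⟨a1.trans b1.symm, ?_⟩
          simp only [a1, b1, h10, if_true, if_false] at h1 h2
          have h3 : (x = 3 ↔ x' = 3) := by
            constructor
            · intro c; by_contra d; rw [if_pos c, if_neg d] at h2; exact h01 h2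
            · intro c; by_contra d; rw [if_neg d, if_pos c] at h2; exact h10 h2
          clear h2
          revert x x'; decide
        · exfalso
          simp only [a1, b0, b1, h10, if_true, if_false] at h2
          by_cases c : x = 3
          · simp only [c, if_true] at h2; exact b0 h2.symm
          · simp only [c, if_false] at h2; exact b1 h2.symm
    · by_cases b0 : t' = 0
      · exfalso
        simp only [a0, a1, b0, if_true, if_false] at h2
        by_cases c : x' = 6
        · simp only [c, if_true] at h2; exact a1 h2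
        · simp only [c, if_false] at h2; exact a0 h2
      · by_cases b1 : t' = 1
        · exfalso
          simp only [a0, a1, b1, h10, if_true, if_false] at h2
          by_cases c : x' = 3
          · simp only [c, if_true] at h2; exact a0 h2
          · simp only [c, if_false] at h2; exact a1 h2
        · simp only [a0, a1, b0, b1, if_false] at h1 h2
          refine ⟨h2, ?_⟩
          clear h2
          revert x x'; decide

/-- parents, all nodes -/
def par (K m : ℕ) (t : Fin (K + 2)) (v : Fin 9 ⊕ Fin m) : Fin 9 ⊕ Fin m :=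
  Sum.elim (fun x => Sum.inl (pr K t x)) (fun _ => Sum.inl 0) v

/-- tree arcs, all nodes -/
def ed (K m : ℕ) (t : Fin (K + 2)) (v : Fin 9 ⊕ Fin m) : (Fin 9 ⊕ Fin m) × Fin (K + 2) :=
  Sum.elim (fun x => (Sum.inl (sl K t x), ix K t x)) (fun l => (Sum.inr l, t)) v

/-- depths, all nodes -/
def dep (K m : ℕ) (t : Fin (K + 2)) (v : Fin 9 ⊕ Fin m) : ℕ :=
  Sum.elim (fun x => dp K t x) (fun _ => 1) v

theorem dep_par (K m : ℕ) (t : Fin (K + 2)) (v : Fin 9 ⊕ Fin m) (hv : v ≠ Sum.inl 0) :
    dep K m t (par K m t v) < dep K m t v := by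
  rcases v with x | l
  · exact tree_dep K t x (fun h => hv (by rw [h]))
  · simp only [dep, par, Sum.elim_inr, Sum.elim_inl]
    unfold dp
    split_ifs <;> simp

theorem ed_arc (K m : ℕ) (t : Fin (K + 2)) (v : Fin 9 ⊕ Fin m) (hv : v ≠ Sum.inl 0) :
    ((dg K m).tail (ed K m t v) = v ∧ (dg K m).head (ed K m t v) = par K m t v) ∨
      ((dg K m).tail (ed K m t v) = par K m t v ∧ (dg K m).head (ed K m t v) = v) := by
  rcases v with x | l
  · have := tree_arc K t x (fun h => hv (by rw [h]))
    simpa only [dg, ed, par, Sum.elim_inl, Sum.inl.injEq] using this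
  · right
    simp [dg, ed, par]

theorem ed_inj (K m : ℕ) (t : Fin (K + 2)) (v : Fin 9 ⊕ Fin m) (t' : Fin (K + 2))
    (v' : Fin 9 ⊕ Fin m) (hv : v ≠ Sum.inl 0) (hv' : v' ≠ Sum.inl 0)
    (h : ed K m t v = ed K m t' v') : t = t' ∧ v = v' := by
  rcases v with x | l <;> rcases v' with x' | l'
  · simp only [ed, Sum.elim_inl, Prod.mk.injEq, Sum.inl.injEq] at h
    obtain ⟨h1, h2⟩ := tree_inj K t t' x x' (fun h => hv (by rw [h])) (fun h => hv' (by rw [h]))
      h.1 h.2
    exact ⟨h1, by rw [h2]⟩
  · simp [ed] at h
  · simp [ed] at h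
  · simp only [ed, Sum.elim_inr, Prod.mk.injEq, Sum.inr.injEq] at h
    exact ⟨h.2, by rw [h.1]⟩

/-! ## No decomposition -/

/-- a cut of the nine nodes contains an arc of every weakly connected subgraph -/
theorem base_cut (K m : ℕ) (S : Set ((Fin 9 ⊕ Fin m) × Fin (K + 2))) (hS : (dg K m).WeakConn S)
    (g : Fin 9 → Bool) (u v : Fin 9) (huv : g u ≠ g v) :
    ∃ (j : Fin 9) (i : Fin (K + 2)), (Sum.inl j, i) ∈ S ∧
      g (tl j (decide (i = 0))) ≠ g (hd j (decide (i = 0))) := by
  obtain ⟨⟨a, i⟩, ha, h⟩ := exists_cut (dg K m) S hS (Sum.elim g (fun _ => g 0)) (Sum.inl u)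
    (Sum.inl v) huv
  rcases a with j | l
  · exact ⟨j, i, ha, h⟩
  · simp [dg] at h

theorem no_dec (K m : ℕ) (S : Fin (K + 2) → Set ((Fin 9 ⊕ Fin m) × Fin (K + 2)))
    (hd' : Pairwise (fun i j => Disjoint (S i) (S j)))
    (hw : ∀ i, (dg K m).WeakConn (S i)) (he : ∀ i, (dg K m).Enters (S i) (Sum.inl 0)) : False := by
  classical
  have hdis : ∀ i i' a, a ∈ S i → a ∈ S i' → i = i' := by
    intro i i' a h1 h2
    by_contra hne
    exact Set.disjoint_left.mp (hd' hne) h1 h2
  -- exactly one arc of the group `j` in every part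
  have grp : ∀ (j x : Fin 9), x ≠ 0 → (∀ (j' : Fin 9) (b : Bool), hd j' b = x → j' = j) →
      ∃ α : Fin (K + 2) → Fin (K + 2), Function.Injective α ∧
        ∀ i t, (Sum.inl j, t) ∈ S i → t = α i := by
    intro j x hx hj
    have h1 : ∀ i, ∃ t, (Sum.inl j, t) ∈ S i := by
      intro i
      obtain ⟨⟨a, t⟩, ha, h⟩ := he i (Sum.inl x) (by simpa using hx)
      rcases a with j' | l
      · simp only [dg, Sum.elim_inl, Sum.inl.injEq] at h
        have := hj _ _ h
        subst this
        exact ⟨t, ha⟩
      · simp [dg] at h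
    choose α hα using h1
    have hinj : Function.Injective α := by
      intro i i' h
      exact hdis i i' _ (hα i) (by rw [h]; exact hα i')
    refine ⟨α, hinj, ?_⟩
    intro i t ht
    obtain ⟨i', hi'⟩ := (Finite.injective_iff_surjective.mp hinj) t
    have : i = i' := hdis i i' _ ht (by rw [← hi']; exact hα i')
    rw [this, hi']
  obtain ⟨a0, i0, u0⟩ := grp 0 1 (by decide) (by decide)
  obtain ⟨a1, i1, u1⟩ := grp 1 3 (by decide) (by decide)
  obtain ⟨a2, i2, u2⟩ := grp 2 2 (by decide) (by decide)
  obtain ⟨a3, i3, u3⟩ := grp 3 5 (by decide) (by decide)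
  obtain ⟨P, hP⟩ := (Finite.injective_iff_surjective.mp i0) 0
  obtain ⟨X, hX⟩ := (Finite.injective_iff_surjective.mp i2) 0
  -- the cut {7, 8}
  have hc1 : ∀ i, a0 i = 0 ∨ a1 i ≠ 0 := by
    intro i
    obtain ⟨j, t, hj, hg⟩ := base_cut K m (S i) (hw i) ![false, false, false, false, false, false,
      false, true, true] 0 7 (by decide)
    have hl : ∀ (j : Fin 9) (b : Bool), (![false, false, false, false, false, false,
      false, true, true] : Fin 9 → Bool) (tl j b) ≠ (![false, false, false, false, false, false,
      false, true, true] : Fin 9 → Bool) (hd j b) → (j = 0 ∧ b = true) ∨ (j = 1 ∧ b = false) := by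
      decide
    rcases hl _ _ hg with ⟨h1, h2⟩ | ⟨h1, h2⟩
    · left
      subst h1
      rw [← u0 i t hj]
      simpa using h2
    · right
      subst h1
      rw [← u1 i t hj]
      simpa using h2
  have hP1 : a1 P = 0 := by
    obtain ⟨Q, hQ⟩ := (Finite.injective_iff_surjective.mp i1) 0
    rcases hc1 Q with h | h
    · have : Q = P := i0 (h.trans hP.symm)
      rw [← this]; exact hQ
    · exact absurd hQ h
  -- the cut {0}
  have hc2 : ∀ i, a2 i = 0 ∨ a3 i ≠ 0 := by
    intro i
    obtain ⟨j, t, hj, hg⟩ := base_cut K m (S i) (hw i) ![true, false, false, false, false, false,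
      false, false, false] 0 7 (by decide)
    have hl : ∀ (j : Fin 9) (b : Bool), (![true, false, false, false, false, false,
      false, false, false] : Fin 9 → Bool) (tl j b) ≠ (![true, false, false, false, false, false,
      false, false, false] : Fin 9 → Bool) (hd j b) → (j = 2 ∧ b = true) ∨ (j = 3 ∧ b = false) := by
      decide
    rcases hl _ _ hg with ⟨h1, h2⟩ | ⟨h1, h2⟩
    · left
      subst h1
      rw [← u2 i t hj]
      simpa using h2
    · right
      subst h1
      rw [← u3 i t hj]
      simpa using h2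
  have hX3 : a3 X = 0 := by
    obtain ⟨Q, hQ⟩ := (Finite.injective_iff_surjective.mp i3) 0
    rcases hc2 Q with h | h
    · have : Q = X := i2 (h.trans hX.symm)
      rw [← this]; exact hQ
    · exact absurd hQ h
  by_cases hPX : P = X
  · -- every part needs an arc 2 → 6
    have h6 : ∀ i, ∃ t : Fin (K + 2), t ≠ 0 ∧ (Sum.inl 6, t) ∈ S i := by
      intro i
      by_cases hi : i = P
      · obtain ⟨j, t, hj, hg⟩ := base_cut K m (S i) (hw i) ![true, false, true, false, false,
          false, false, false, false] 0 7 (by decide)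
        have hl : ∀ (j : Fin 9) (b : Bool), (![true, false, true, false, false, false,
          false, false, false] : Fin 9 → Bool) (tl j b) ≠ (![true, false, true, false, false,
          false, false, false, false] : Fin 9 → Bool) (hd j b) → b = false ∧
            (j = 0 ∨ j = 2 ∨ j = 3 ∨ j = 6) := by decide
        obtain ⟨hb, h1 | h1 | h1 | h1⟩ := hl _ _ hg
        · subst h1
          exfalso
          rw [u0 i t hj, hi, hP] at hb
          simp at hb
        · subst h1
          exfalso
          rw [u2 i t hj, hi, hPX, hX] at hb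
          simp at hb
        · subst h1
          exfalso
          rw [u3 i t hj, hi, hPX, hX3] at hb
          simp at hb
        · subst h1
          exact ⟨t, by simpa using hb, hj⟩
      · obtain ⟨j, t, hj, hg⟩ := base_cut K m (S i) (hw i) ![true, false, false, false, false,
          true, true, false, false] 0 7 (by decide)
        have hl : ∀ (j : Fin 9) (b : Bool), (![true, false, false, false, false, true,
          true, false, false] : Fin 9 → Bool) (tl j b) ≠ (![true, false, false, false, false,
          true, true, false, false] : Fin 9 → Bool) (hd j b) →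
            (b = true ∧ (j = 1 ∨ j = 2 ∨ j = 3)) ∨ (b = false ∧ j = 6) := by decide
        rcases hl _ _ hg with ⟨hb, h1 | h1 | h1⟩ | ⟨hb, h1⟩
        · subst h1
          exfalso
          have h2 : a1 i = 0 := by rw [← u1 i t hj]; simpa using hb
          exact hi (i1 (h2.trans hP1.symm))
        · subst h1
          exfalso
          have h2 : a2 i = 0 := by rw [← u2 i t hj]; simpa using hb
          exact hi ((i2 (h2.trans hX.symm)).trans hPX.symm)
        · subst h1
          exfalso
          have h2 : a3 i = 0 := by rw [← u3 i t hj]; simpa using hb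
          exact hi ((i3 (h2.trans hX3.symm)).trans hPX.symm)
        · subst h1
          exact ⟨t, by simpa using hb, hj⟩
    choose ε hε0 hε using h6
    have hinj : Function.Injective ε := by
      intro i i' h
      exact hdis i i' _ (hε i) (by rw [h]; exact hε i')
    obtain ⟨i, hi⟩ := (Finite.injective_iff_surjective.mp hinj) 0
    exact hε0 i hi
  · -- the parts P and X both need the arc 1 → 4
    have hP6 : (Sum.inl 6, (0 : Fin (K + 2))) ∈ S P := by
      obtain ⟨j, t, hj, hg⟩ := base_cut K m (S P) (hw P) ![false, true, false, false, false,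
        false, false, true, true] 0 7 (by decide)
      have hl : ∀ (j : Fin 9) (b : Bool), (![false, true, false, false, false, false,
        false, true, true] : Fin 9 → Bool) (tl j b) ≠ (![false, true, false, false, false,
        false, false, true, true] : Fin 9 → Bool) (hd j b) →
          (b = false ∧ (j = 0 ∨ j = 1)) ∨ (b = true ∧ (j = 3 ∨ j = 6)) := by decide
      rcases hl _ _ hg with ⟨hb, h1 | h1⟩ | ⟨hb, h1 | h1⟩
      · subst h1
        exfalso
        rw [u0 P t hj, hP] at hb
        simp at hb
      · subst h1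
        exfalso
        rw [u1 P t hj, hP1] at hb
        simp at hb
      · subst h1
        exfalso
        have h2 : a3 P = 0 := by rw [← u3 P t hj]; simpa using hb
        exact hPX (i3 (h2.trans hX3.symm))
      · subst h1
        have h2 : t = 0 := by simpa using hb
        rw [← h2]; exact hj
    have hX6 : (Sum.inl 6, (0 : Fin (K + 2))) ∈ S X := by
      obtain ⟨j, t, hj, hg⟩ := base_cut K m (S X) (hw X) ![false, false, false, true, true,
        false, false, true, true] 0 7 (by decide)
      have hl : ∀ (j : Fin 9) (b : Bool), (![false, false, false, true, true, false,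
        false, true, true] : Fin 9 → Bool) (tl j b) ≠ (![false, false, false, true, true,
        false, false, true, true] : Fin 9 → Bool) (hd j b) →
          (b = true ∧ (j = 0 ∨ j = 1 ∨ j = 6)) ∨ (b = false ∧ j = 2) := by decide
      rcases hl _ _ hg with ⟨hb, h1 | h1 | h1⟩ | ⟨hb, h1⟩
      · subst h1
        exfalso
        have h2 : a0 X = 0 := by rw [← u0 X t hj]; simpa using hb
        exact hPX (i0 (hP.trans h2.symm))
      · subst h1
        exfalso
        have h2 : a1 X = 0 := by rw [← u1 X t hj]; simpa using hb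
        exact hPX (i1 (hP1.trans h2.symm))
      · subst h1
        have h2 : t = 0 := by simpa using hb
        rw [← h2]; exact hj
      · subst h1
        exfalso
        rw [u2 X t hj, hX] at hb
        simp at hb
    exact hPX (hdis P X _ hP6 hX6)

/-- For all `k ≥ 2` and `n ≥ 9` there is a finite loopless digraph with `n` nodes and `k n` arcs
whose underlying graph is `k`-partition-connected (and has `k` pairwise disjoint connected spanning
subgraphs), with a node `r` of in-degree `0` and all other in-degrees at least `k`, but without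
`k` pairwise disjoint arc sets each of which is weakly connected and enters every node other than
`r`; in particular it has no decomposition as asked for in Q1. -/
theorem example_every_k (k n : ℕ) (hk : 2 ≤ k) (hn : 9 ≤ n) :
    ∃ (V A : Type) (_ : Finite V) (_ : Finite A) (D : MDigraph V A) (r : V),
      Nat.card V = n ∧ Nat.card A = k * n ∧ D.PartConn k ∧ (∀ a : A, D.head a ≠ r) ∧
      (∀ v : V, v ≠ r → k ≤ {a : A | D.head a = v}.ncard) ∧
      (∃ T : Fin k → Set A, Pairwise (fun i j => Disjoint (T i) (T j)) ∧
        ∀ i, D.WeakConn (T i)) ∧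
      ¬ ∃ S : Fin k → Set A, Pairwise (fun i j => Disjoint (S i) (S j)) ∧
        ∀ i, D.WeakConn (S i) ∧ D.Enters (S i) r := by
  obtain ⟨K, rfl⟩ : ∃ K, k = K + 2 := ⟨k - 2, by omega⟩
  obtain ⟨m, rfl⟩ : ∃ m, n = 9 + m := ⟨n - 9, by omega⟩
  refine ⟨Fin 9 ⊕ Fin m, (Fin 9 ⊕ Fin m) × Fin (K + 2), inferInstance, inferInstance, dg K m,
    Sum.inl 0, ?_, ?_, ?_, ?_, ?_, ?_, ?_⟩
  · simp
  · simp [mul_comm]
  · exact partConn_of_trees (dg K m) (K + 2) (Sum.inl 0) (par K m) (ed K m) (dep K m)
      (dep_par K m) (ed_arc K m) (ed_inj K m)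
  · rintro ⟨j | l, i⟩
    · simp only [dg, Sum.elim_inl, ne_eq, Sum.inl.injEq]
      have : ∀ (j : Fin 9) (b : Bool), hd j b ≠ 0 := by decide
      exact this _ _
    · simp [dg]
  · intro v hv
    have key : ∃ w : Fin 9 ⊕ Fin m, ∀ i : Fin (K + 2), (dg K m).head (w, i) = v := by
      rcases v with x | l
      · have hx : x ≠ 0 := fun h => hv (by rw [h])
        have : ∀ x : Fin 9, x ≠ 0 → ∃ j : Fin 9, ∀ b, hd j b = x := by decide
        obtain ⟨j, hj⟩ := this x hx
        exact ⟨Sum.inl j, fun i => by simp [dg, hj]⟩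
      · exact ⟨Sum.inr l, fun i => by simp [dg]⟩
    obtain ⟨w, hw⟩ := key
    have h1 : (Set.range (fun i : Fin (K + 2) => (w, i))) ⊆ {a | (dg K m).head a = v} := by
      rintro _ ⟨i, rfl⟩
      exact hw i
    have h2 : (Set.range (fun i : Fin (K + 2) => (w, i))).ncard = K + 2 := by
      rw [Set.ncard_range_of_injective]
      · simp
      · intro i j h
        simpa using h
    exact h2.symm.le.trans (Set.ncard_le_ncard h1 (Set.toFinite _))
  · refine ⟨fun t => {a | ∃ v, v ≠ Sum.inl 0 ∧ ed K m t v = a}, ?_, ?_⟩
    · intro t t' htt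
      rw [Set.disjoint_left]
      rintro a ⟨v, hv, h1⟩ ⟨v', hv', h2⟩
      exact htt (ed_inj K m t v t' v' hv hv' (h1.trans h2.symm)).1
    · intro t
      exact weakConn_of_tree (dg K m) (Sum.inl 0) (par K m t) (ed K m t) (dep K m t)
        (dep_par K m t) (ed_arc K m t)
  · rintro ⟨S, hS, h⟩
    exact no_dec K m S hS (fun i => (h i).1) (fun i => (h i).2)

end Pool.Agent.Lib.MP_2dea4c_co.ExEveryK
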