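import Pool.Statements.S07886

/-!
A counterexample with `k = 2`, nine vertices and eighteen arcs.

Vertices: `0` is the root, `{7, 8}` is joined by four parallel arcs (two in each direction),
`3 => 4` and `5 => 6` are pairs of parallel arcs.
-/

set_option autoImplicit false
open Pool Pool.MP_2dea4c_co

namespace Pool.Agent.Lib.MP_2dea4c_co.ExTwo

/-- tails of the eighteen arcs -/
def tl : Fin 18 → Fin 9 := ![7, 2, 8, 5, 0, 3, 0, 1, 1, 2, 3, 3, 5, 5, 7, 7, 8, 8]

/-- heads of the eighteen arcs -/
def hd : Fin 18 → Fin 9 := ![1, 1, 3, 3, 2, 2, 5, 5, 4, 6, 4, 4, 6, 6, 8, 8, 7, 7]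

/-- parents in the first spanning tree -/
def par1 : Fin 9 → Fin 9 := ![0, 4, 1, 5, 3, 0, 5, 1, 7]

/-- parent edges in the first spanning tree -/
def ed1 : Fin 9 → Fin 18 := ![0, 8, 1, 3, 11, 6, 12, 0, 14]

/-- depths in the first spanning tree -/
def dep1 : Fin 9 → ℕ := ![0, 4, 5, 2, 3, 1, 2, 5, 6]

/-- parents in the second spanning tree -/
def par2 : Fin 9 → Fin 9 := ![0, 5, 0, 2, 3, 6, 2, 8, 3]

/-- parent edges in the second spanning tree -/
def ed2 : Fin 9 → Fin 18 := ![0, 7, 4, 5, 10, 13, 9, 15, 2]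

/-- depths in the second spanning tree -/
def dep2 : Fin 9 → ℕ := ![0, 4, 1, 2, 3, 3, 2, 4, 3]

/-- the number of values of a labelling is at most one more than the number of tree edges whose
ends have different labels -/
theorem image_card_le (p : Fin 9 → ℕ) (par : Fin 9 → Fin 9) (dep : Fin 9 → ℕ)
    (h : ∀ v : Fin 9, v ≠ 0 → dep (par v) < dep v) :
    (Finset.univ.image p).card - 1 ≤
      (Finset.univ.filter (fun v : Fin 9 => v ≠ 0 ∧ p v ≠ p (par v))).card := by
  classical
  set F := Finset.univ.filter (fun v : Fin 9 => v ≠ 0 ∧ p v ≠ p (par v)) with hF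
  have key : ∀ n : ℕ, ∀ v : Fin 9, dep v ≤ n → p v ∈ insert (p 0) (F.image p) := by
    intro n
    induction n with
    | zero =>
      intro v hv
      by_cases h0 : v = 0
      · subst h0; exact Finset.mem_insert_self _ _
      · have := h v h0
        omega
    | succ n ih =>
      intro v hv
      by_cases h0 : v = 0
      · subst h0; exact Finset.mem_insert_self _ _
      · by_cases hp : p v = p (par v)
        · rw [hp]
          exact ih _ (by have := h v h0; omega)
        · apply Finset.mem_insert_of_mem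
          apply Finset.mem_image_of_mem
          simp [hF, h0, hp]
  have hsub : Finset.univ.image p ⊆ insert (p 0) (F.image p) := by
    intro x hx
    rcases Finset.mem_image.1 hx with ⟨v, -, rfl⟩
    exact key _ v le_rfl
  have h1 := Finset.card_le_card hsub
  have h2 := Finset.card_insert_le (p 0) (F.image p)
  have h3 : (F.image p).card ≤ F.card := Finset.card_image_le
  omega

theorem partition_connected (p : Fin 9 → ℕ) :
    2 * ((Finset.univ.image p).card - 1) ≤
      Fintype.card {a : Fin 18 // p (tl a) ≠ p (hd a)} := by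
  classical
  have h1 := image_card_le p par1 dep1 (by decide)
  have h2 := image_card_le p par2 dep2 (by decide)
  set F1 := Finset.univ.filter (fun v : Fin 9 => v ≠ 0 ∧ p v ≠ p (par1 v)) with hF1
  set F2 := Finset.univ.filter (fun v : Fin 9 => v ≠ 0 ∧ p v ≠ p (par2 v)) with hF2
  rw [Fintype.card_subtype]
  have inj1 : ∀ v w : Fin 9, v ≠ 0 → w ≠ 0 → ed1 v = ed1 w → v = w := by decide
  have inj2 : ∀ v w : Fin 9, v ≠ 0 → w ≠ 0 → ed2 v = ed2 w → v = w := by decide
  have disj : ∀ v w : Fin 9, v ≠ 0 → w ≠ 0 → ed1 v ≠ ed2 w := by decide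
  have e1 : ∀ v : Fin 9, v ≠ 0 →
      (tl (ed1 v) = v ∧ hd (ed1 v) = par1 v) ∨ (hd (ed1 v) = v ∧ tl (ed1 v) = par1 v) := by
    decide
  have e2 : ∀ v : Fin 9, v ≠ 0 →
      (tl (ed2 v) = v ∧ hd (ed2 v) = par2 v) ∨ (hd (ed2 v) = v ∧ tl (ed2 v) = par2 v) := by
    decide
  have c1 : (F1.image ed1).card = F1.card := by
    apply Finset.card_image_of_injOn
    intro v hv w hw hvw
    simp only [hF1, Finset.coe_filter, Finset.mem_univ, true_and, Set.mem_ofPred_eq] at hv hw
    exact inj1 v w hv.1 hw.1 hvw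
  have c2 : (F2.image ed2).card = F2.card := by
    apply Finset.card_image_of_injOn
    intro v hv w hw hvw
    simp only [hF2, Finset.coe_filter, Finset.mem_univ, true_and, Set.mem_ofPred_eq] at hv hw
    exact inj2 v w hv.1 hw.1 hvw
  have hd12 : Disjoint (F1.image ed1) (F2.image ed2) := by
    rw [Finset.disjoint_left]
    intro a ha hb
    rcases Finset.mem_image.1 ha with ⟨v, hv, rfl⟩
    rcases Finset.mem_image.1 hb with ⟨w, hw, hvw⟩
    simp only [hF1, Finset.mem_filter, Finset.mem_univ, true_and] at hv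
    simp only [hF2, Finset.mem_filter, Finset.mem_univ, true_and] at hw
    exact disj v w hv.1 hw.1 hvw.symm
  have hsub : F1.image ed1 ∪ F2.image ed2 ⊆
      Finset.univ.filter (fun a : Fin 18 => p (tl a) ≠ p (hd a)) := by
    intro a ha
    rcases Finset.mem_union.1 ha with ha | ha
    · rcases Finset.mem_image.1 ha with ⟨v, hv, rfl⟩
      simp only [hF1, Finset.mem_filter, Finset.mem_univ, true_and] at hv
      simp only [Finset.mem_filter, Finset.mem_univ, true_and]
      rcases e1 v hv.1 with ⟨h, h'⟩ | ⟨h, h'⟩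
      · rw [h, h']; exact hv.2
      · rw [h, h']; exact fun hh => hv.2 hh.symm
    · rcases Finset.mem_image.1 ha with ⟨v, hv, rfl⟩
      simp only [hF2, Finset.mem_filter, Finset.mem_univ, true_and] at hv
      simp only [Finset.mem_filter, Finset.mem_univ, true_and]
      rcases e2 v hv.1 with ⟨h, h'⟩ | ⟨h, h'⟩
      · rw [h, h']; exact hv.2
      · rw [h, h']; exact fun hh => hv.2 hh.symm
  have h4 := Finset.card_le_card hsub
  rw [Finset.card_union_of_disjoint hd12, c1, c2] at h4
  omega

/-- a weakly connected spanning part meets every cut -/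
theorem cut_of_connected (f : Fin 18 → Fin 2) (i : Fin 2)
    (hc : (SimpleGraph.fromRel
      (fun u v : Fin 9 => ∃ a : Fin 18, f a = i ∧ tl a = u ∧ hd a = v)).Connected)
    (S : Fin 9 → Bool) (u v : Fin 9) (hu : S u = true) (hv : S v = false) :
    ∃ a : Fin 18, f a = i ∧ S (tl a) ≠ S (hd a) := by
  obtain ⟨w⟩ := hc.preconnected u v
  obtain ⟨d, -, hd1, hd2⟩ := w.exists_boundary_dart {x | S x = true} hu (by simp [hv])
  have hadj := d.adj
  rw [SimpleGraph.fromRel_adj] at hadj
  simp only [Set.mem_ofPred_eq, Bool.not_eq_true] at hd1 hd2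
  rcases hadj.2 with ⟨a, ha, h1, h2⟩ | ⟨a, ha, h1, h2⟩
  · exact ⟨a, ha, by rw [h1, h2, hd1, hd2]; decide⟩
  · exact ⟨a, ha, by rw [h1, h2, hd1, hd2]; decide⟩

theorem two_aux : ∀ x y : Fin 2, (∀ i : Fin 2, x = i ∨ y = i) → x.val + y.val = 1 := by
  decide

theorem four_aux : ∀ x y z w : Fin 2, (∀ i : Fin 2, x = i ∨ y = i ∨ z = i ∨ w = i) →
    1 ≤ x.val + y.val + z.val + w.val ∧ x.val + y.val + z.val + w.val ≤ 3 := by
  decide

/-- the finite core: ten edge sets cannot all be non-monochromatic -/
theorem core (x0 x1 x2 x3 x4 x5 x6 x7 x8 x9 : Fin 2)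
    (h1 : ∀ i : Fin 2, x0 = i ∨ x1 = i) (h2 : ∀ i : Fin 2, x2 = i ∨ x3 = i)
    (h3 : ∀ i : Fin 2, x4 = i ∨ x5 = i) (h4 : ∀ i : Fin 2, x6 = i ∨ x7 = i)
    (h5 : ∀ i : Fin 2, x0 = i ∨ x2 = i) (h6 : ∀ i : Fin 2, x4 = i ∨ x6 = i)
    (h7 : ∀ i : Fin 2, x0 = i ∨ x3 = i ∨ x5 = i ∨ x8 = i)
    (h8 : ∀ i : Fin 2, x1 = i ∨ x2 = i ∨ x7 = i ∨ x8 = i)
    (h9 : ∀ i : Fin 2, x3 = i ∨ x4 = i ∨ x7 = i ∨ x9 = i)
    (h10 : ∀ i : Fin 2, x1 = i ∨ x5 = i ∨ x6 = i ∨ x9 = i) : False := by
  have e1 := two_aux _ _ h1
  have e2 := two_aux _ _ h2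
  have e3 := two_aux _ _ h3
  have e4 := two_aux _ _ h4
  have e5 := two_aux _ _ h5
  have e6 := two_aux _ _ h6
  have e7 := four_aux _ _ _ _ h7
  have e8 := four_aux _ _ _ _ h8
  have e9 := four_aux _ _ _ _ h9
  have e10 := four_aux _ _ _ _ h10
  omega

/-- The negation of the preceding statement: For any k ≥ 1 and any loopless finite directed multigraph that is k-partition-connected when undirected, with a root of in-degree 0 and all other in-degrees at least k, the arcs split into k weakly connected spanning parts, each entering every non-root vertex. -/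
theorem example_two :
    ¬ (∀ (V : Type) [Fintype V] [DecidableEq V] (A : Type) [Fintype A]
      (tail head : A → V) (k : ℕ) (r₀ : V),
      0 < k →
      (∀ a : A, tail a ≠ head a) →
      (∀ p : V → ℕ,
        k * ((Finset.univ.image p).card - 1) ≤
          Fintype.card {a : A // p (tail a) ≠ p (head a)}) →
      (∀ a : A, head a ≠ r₀) →
      (∀ v : V, v ≠ r₀ → k ≤ Fintype.card {a : A // head a = v}) →
      ∃ f : A → Fin k,
        (∀ i : Fin k,
          (SimpleGraph.fromRel
            (fun u v : V => ∃ a : A, f a = i ∧ tail a = u ∧ head a = v)).Connected) ∧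
        (∀ i : Fin k, ∀ v : V, v ≠ r₀ → ∃ a : A, f a = i ∧ head a = v)) := by
  intro H
  obtain ⟨f, hconn, hin⟩ := H (Fin 9) (Fin 18) tl hd 2 0 (by norm_num) (by decide)
    partition_connected (by decide) (by decide)
  -- in-stars
  have s1 : ∀ i : Fin 2, f 0 = i ∨ f 1 = i := by
    intro i
    obtain ⟨a, ha, hb⟩ := hin i 1 (by decide)
    have : ∀ a : Fin 18, hd a = 1 → a = 0 ∨ a = 1 := by decide
    rcases this a hb with rfl | rfl
    · exact Or.inl ha
    · exact Or.inr ha
  have s3 : ∀ i : Fin 2, f 2 = i ∨ f 3 = i := by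
    intro i
    obtain ⟨a, ha, hb⟩ := hin i 3 (by decide)
    have : ∀ a : Fin 18, hd a = 3 → a = 2 ∨ a = 3 := by decide
    rcases this a hb with rfl | rfl
    · exact Or.inl ha
    · exact Or.inr ha
  have s2 : ∀ i : Fin 2, f 4 = i ∨ f 5 = i := by
    intro i
    obtain ⟨a, ha, hb⟩ := hin i 2 (by decide)
    have : ∀ a : Fin 18, hd a = 2 → a = 4 ∨ a = 5 := by decide
    rcases this a hb with rfl | rfl
    · exact Or.inl ha
    · exact Or.inr ha
  have s5 : ∀ i : Fin 2, f 6 = i ∨ f 7 = i := by
    intro i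
    obtain ⟨a, ha, hb⟩ := hin i 5 (by decide)
    have : ∀ a : Fin 18, hd a = 5 → a = 6 ∨ a = 7 := by decide
    rcases this a hb with rfl | rfl
    · exact Or.inl ha
    · exact Or.inr ha
  -- cuts
  have c1 : ∀ i : Fin 2, f 0 = i ∨ f 2 = i := by
    intro i
    obtain ⟨a, ha, hb⟩ := cut_of_connected f i (hconn i)
      ![false, false, false, false, false, false, false, true, true] 7 0 rfl rfl
    have : ∀ a : Fin 18,
        (![false, false, false, false, false, false, false, true, true] : Fin 9 → Bool) (tl a) ≠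
        (![false, false, false, false, false, false, false, true, true] : Fin 9 → Bool) (hd a) →
        a = 0 ∨ a = 2 := by decide
    rcases this a hb with rfl | rfl
    · exact Or.inl ha
    · exact Or.inr ha
  have c2 : ∀ i : Fin 2, f 4 = i ∨ f 6 = i := by
    intro i
    obtain ⟨a, ha, hb⟩ := cut_of_connected f i (hconn i)
      ![true, false, false, false, false, false, false, false, false] 0 1 rfl rfl
    have : ∀ a : Fin 18,
        (![true, false, false, false, false, false, false, false, false] : Fin 9 → Bool) (tl a) ≠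
        (![true, false, false, false, false, false, false, false, false] : Fin 9 → Bool) (hd a) →
        a = 4 ∨ a = 6 := by decide
    rcases this a hb with rfl | rfl
    · exact Or.inl ha
    · exact Or.inr ha
  -- {b, a, p, q} = {3, 4, 7, 8}
  have c3 : ∀ i : Fin 2, f 0 = i ∨ f 3 = i ∨ f 5 = i ∨ f 8 = i := by
    intro i
    obtain ⟨a, ha, hb⟩ := cut_of_connected f i (hconn i)
      ![false, false, false, true, true, false, false, true, true] 3 0 rfl rfl
    have : ∀ a : Fin 18,
        (![false, false, false, true, true, false, false, true, true] : Fin 9 → Bool) (tl a) ≠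
        (![false, false, false, true, true, false, false, true, true] : Fin 9 → Bool) (hd a) →
        a = 0 ∨ a = 3 ∨ a = 5 ∨ a = 8 := by decide
    rcases this a hb with rfl | rfl | rfl | rfl
    · exact Or.inl ha
    · exact Or.inr (Or.inl ha)
    · exact Or.inr (Or.inr (Or.inl ha))
    · exact Or.inr (Or.inr (Or.inr ha))
  -- {1, p, q} = {1, 7, 8}
  have c4 : ∀ i : Fin 2, f 1 = i ∨ f 2 = i ∨ f 7 = i ∨ f 8 = i := by
    intro i
    obtain ⟨a, ha, hb⟩ := cut_of_connected f i (hconn i)
      ![false, true, false, false, false, false, false, true, true] 1 0 rfl rfl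
    have : ∀ a : Fin 18,
        (![false, true, false, false, false, false, false, true, true] : Fin 9 → Bool) (tl a) ≠
        (![false, true, false, false, false, false, false, true, true] : Fin 9 → Bool) (hd a) →
        a = 1 ∨ a = 2 ∨ a = 7 ∨ a = 8 := by decide
    rcases this a hb with rfl | rfl | rfl | rfl
    · exact Or.inl ha
    · exact Or.inr (Or.inl ha)
    · exact Or.inr (Or.inr (Or.inl ha))
    · exact Or.inr (Or.inr (Or.inr ha))
  -- {1, 2, 3, 4, 7, 8}
  have c5 : ∀ i : Fin 2, f 3 = i ∨ f 4 = i ∨ f 7 = i ∨ f 9 = i := by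
    intro i
    obtain ⟨a, ha, hb⟩ := cut_of_connected f i (hconn i)
      ![false, true, true, true, true, false, false, true, true] 1 0 rfl rfl
    have : ∀ a : Fin 18,
        (![false, true, true, true, true, false, false, true, true] : Fin 9 → Bool) (tl a) ≠
        (![false, true, true, true, true, false, false, true, true] : Fin 9 → Bool) (hd a) →
        a = 3 ∨ a = 4 ∨ a = 7 ∨ a = 9 := by decide
    rcases this a hb with rfl | rfl | rfl | rfl
    · exact Or.inl ha
    · exact Or.inr (Or.inl ha)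
    · exact Or.inr (Or.inr (Or.inl ha))
    · exact Or.inr (Or.inr (Or.inr ha))
  -- {1, 3, 4, 5, 6, 7, 8}
  have c6 : ∀ i : Fin 2, f 1 = i ∨ f 5 = i ∨ f 6 = i ∨ f 9 = i := by
    intro i
    obtain ⟨a, ha, hb⟩ := cut_of_connected f i (hconn i)
      ![false, true, false, true, true, true, true, true, true] 1 0 rfl rfl
    have : ∀ a : Fin 18,
        (![false, true, false, true, true, true, true, true, true] : Fin 9 → Bool) (tl a) ≠
        (![false, true, false, true, true, true, true, true, true] : Fin 9 → Bool) (hd a) →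
        a = 1 ∨ a = 5 ∨ a = 6 ∨ a = 9 := by decide
    rcases this a hb with rfl | rfl | rfl | rfl
    · exact Or.inl ha
    · exact Or.inr (Or.inl ha)
    · exact Or.inr (Or.inr (Or.inl ha))
    · exact Or.inr (Or.inr (Or.inr ha))
  exact core _ _ _ _ _ _ _ _ _ _ s1 s3 s2 s5 c1 c2 c3 c4 c5 c6

end Pool.Agent.Lib.MP_2dea4c_co.ExTwo
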